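import Mathlib
import Pool.Agent.Q133.MU.Pow

/-!
# Elements of prime order decide local finiteness, for every exponent

Let `n > 1` be any number and `p` any prime divisor of `n`. The following are equivalent.

* `n ∈ 𝓛`.
* In every group satisfying `x ^ n = 1` finitely many conjugates of an element `g ^ (n / p)`
  generate a finite subgroup.
* Every group satisfying `x ^ n = 1` which is generated by finitely many elements with trivial `p`-th
  power (for instance by involutions, if `n` is even and `p = 2`) is finite.

There is no hypothesis on `n`, and the prime `p` is arbitrary; so the conditions for the different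
prime divisors of `n` are equivalent to each other. The second one requires that for
every `g` in a group of exponent `n` the normal closure of `g ^ (n / p)` is locally finite.

Proof. Let `m = n / p`. The subgroup generated by all `m`-th powers is locally finite, as products of
finitely many locally finite normal subgroups are, and the quotient satisfies `x ^ m = 1`. So it has
to be shown that `m ∈ 𝓛`. If `p` divides `m`, the hypothesis for `n` implies the hypothesis for `m`:
the elements `k` of a group `K` of exponent `m` are, embedded as constant functions, `p`-th powers of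
elements of the wreath product of `K` and a cyclic group of order `p`, whose exponent divides `p m`.
If `p` does not divide `m`, all elements of order `p` are `m`-th powers; so the largest
group of exponent `n` generated by `s` elements with trivial `p`-th power is finite. By an orbifold
covering argument `B_{r,m}` is a quotient of a subgroup of it for
`r = 1 + (s - 1) p ^ s - s p ^ (s - 1)`, so that all `B_{r,m}` are finite.
-/

set_option autoImplicit false

namespace Pool.Agent.Results.MP_544bd1_al.PowersOfPrimeOrder

universe u v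

/-- `n ∈ 𝓛`: every group satisfying `x ^ n = 1` is locally finite. -/
def InL (n : ℕ) : Prop := ∀ (G : Type u) [Group G], (∀ x : G, x ^ n = 1) →
  ∀ S : Set G, S.Finite → Finite (Subgroup.closure S)

/-- In every group satisfying `x ^ n = 1` finitely many conjugates of a `k`-th power generate a finite
subgroup. -/
def ConjugatePowers (n k : ℕ) : Prop := ∀ (G : Type u) [Group G], (∀ x : G, x ^ n = 1) →
  ∀ (g : G) (S : Set G), S.Finite → (∀ x ∈ S, IsConj (g ^ k) x) → Finite (Subgroup.closure S)

/-- In every group satisfying `x ^ n = 1` finitely many elements with trivial `d`-th power generate a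
finite subgroup. -/
def SmallOrder (n d : ℕ) : Prop := ∀ (G : Type u) [Group G], (∀ x : G, x ^ n = 1) →
  ∀ S : Set G, S.Finite → (∀ x ∈ S, x ^ d = 1) → Finite (Subgroup.closure S)

/-- The free Burnside group `B_{m,n}`: the free group of rank `m` modulo the normal closure of all
`n`-th powers. -/
abbrev B (m n : ℕ) : Type :=
  FreeGroup (Fin m) ⧸ Subgroup.normalClosure (Set.range fun w : FreeGroup (Fin m) => w ^ n)

/-- The largest group of exponent dividing `n` which is generated by `s` elements with trivial `d`-th
power: the free group of rank `s` modulo the normal closure of all `n`-th powers and of the `d`-th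
powers of the free generators. -/
abbrev P (s n d : ℕ) : Type :=
  FreeGroup (Fin s) ⧸ Subgroup.normalClosure
    ((Set.range fun w : FreeGroup (Fin s) => w ^ n) ∪ Set.range fun i : Fin s => FreeGroup.of i ^ d)

theorem p_exp (s n d : ℕ) (x : P s n d) : x ^ n = 1 := by
  obtain ⟨w, rfl⟩ := QuotientGroup.mk_surjective x
  rw [← QuotientGroup.mk_pow, QuotientGroup.eq_one_iff]
  exact Subgroup.subset_normalClosure (Or.inl ⟨w, rfl⟩)

theorem p_of (s n d : ℕ) (i : Fin s) : (QuotientGroup.mk (FreeGroup.of i) : P s n d) ^ d = 1 := by
  rw [← QuotientGroup.mk_pow, QuotientGroup.eq_one_iff]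
  exact Subgroup.subset_normalClosure (Or.inr ⟨i, rfl⟩)

theorem p_gen (s n d : ℕ) : Subgroup.closure
    (Set.range fun i : Fin s => (QuotientGroup.mk (FreeGroup.of i) : P s n d)) = ⊤ := by
  rw [eq_top_iff]
  rintro x -
  obtain ⟨w, rfl⟩ := QuotientGroup.mk_surjective x
  induction w using FreeGroup.induction_on with
  | C1 => exact one_mem _
  | of i => exact Subgroup.subset_closure ⟨i, rfl⟩
  | inv_of i hi => exact inv_mem hi
  | mul a b ha hb => exact mul_mem ha hb

theorem p_finite {s n d : ℕ} (h : SmallOrder.{v} n d) : Finite (P s n d) := by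
  let Q := P s n d
  let f : Q →* ULift.{v} Q := (MulEquiv.ulift (α := Q)).symm.toMonoidHom
  have hf : Function.Injective f := (MulEquiv.ulift (α := Q)).symm.injective
  have h1 := h (ULift.{v} Q) (by
      intro x
      obtain ⟨y, rfl⟩ := (MulEquiv.ulift (α := Q)).symm.surjective x
      rw [← map_pow, p_exp, map_one])
    (f '' Set.range fun i : Fin s => (QuotientGroup.mk (FreeGroup.of i) : P s n d))
    ((Set.finite_range _).image _) (by
      rintro _ ⟨_, ⟨i, rfl⟩, rfl⟩
      rw [← map_pow, p_of, map_one])
  have h2 := Pool.Agent.Q133.MU.fin_inj f hf h1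
  rw [p_gen] at h2
  exact Finite.of_equiv _ (Subgroup.topEquiv (G := Q)).toEquiv

theorem small_iff {n d : ℕ} (hd : 2 ≤ d) (hdn : d ∣ n) :
    (InL.{u} n ↔ SmallOrder.{v} n d) ∧ (InL.{u} n ↔ ∀ s, Finite (P s n d)) := by
  have h1 : (∀ s, Finite (P s n d)) → InL.{u} n := by
    intro h
    obtain ⟨m, rfl⟩ := hdn
    exact fun G _ hG S hS => Pool.Agent.Q133.MU.lf_of_pp hd h hG S hS
  have h1' : (∀ s, Finite (P s n d)) → InL.{v} n := by
    intro h
    obtain ⟨m, rfl⟩ := hdn
    exact fun G _ hG S hS => Pool.Agent.Q133.MU.lf_of_pp hd h hG S hS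
  have h2 : InL.{u} n → ∀ s, Finite (P s n d) := fun h s =>
    p_finite.{u} fun G _ hG S hS _ => h G hG S hS
  refine ⟨⟨fun h => ?_, fun h => h1 fun s => p_finite h⟩, h2, h1⟩
  exact fun G _ hG S hS _ => h1' (h2 h) G hG S hS

theorem conj_iff {p m : ℕ} (hp : p.Prime) (hm : 1 ≤ m) :
    InL.{u} (p * m) ↔ ConjugatePowers.{v} (p * m) m := by
  constructor
  · intro h
    have h1 : InL.{v} (p * m) := by
      have h2 := (small_iff.{u, v} hp.two_le (Dvd.intro m rfl)).2.1 h
      exact (small_iff.{v, v} hp.two_le (Dvd.intro m rfl)).2.2 h2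
    exact fun G _ hG g S hS _ => h1 G hG S hS
  · intro h
    have h1 : Pool.Agent.Q133.MU.HConj.{v} p m := h
    have h2 := Pool.Agent.Q133.MU.lf_of_hpow hp m hm h1.pow.zero
    refine fun G _ hG S hS => Pool.Agent.Q133.MU.finite_closure (n := p * m) (fun r => ?_) G hG S hS
    have h3 := h2 (Pool.Agent.Q133.MU.B r (p * m)) (Pool.Agent.Q133.MU.B_exp r (p * m)) _
      (Set.finite_range fun i : Fin r => (QuotientGroup.mk (FreeGroup.of i) :
        Pool.Agent.Q133.MU.B r (p * m)))
    rw [Pool.Agent.Q133.MU.B_gen] at h3
    exact Finite.of_equiv _ (Subgroup.topEquiv (G := Pool.Agent.Q133.MU.B r (p * m))).toEquiv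

/-- (1) Let `p` be a prime divisor of `n ≥ 1`. Then `n ∈ 𝓛` if and only if in all groups satisfying
`x ^ n = 1` finitely many conjugates of an `(n / p)`-th power generate a finite subgroup. (2) Let
`d ≥ 2` divide `n`. Then `n ∈ 𝓛` if and only if in all groups satisfying `x ^ n = 1` finitely many
elements with trivial `d`-th power generate a finite subgroup, and if and only if `P s n d` is
finite for all `s`. (3) In particular for two primes (or any numbers `≥ 2`) `d`, `e` dividing `n`:
finitely many elements with trivial `d`-th power generate a finite group in all groups of exponent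
dividing `n` if and only if finitely many elements with trivial `e`-th power do. (4) For all `n ≥ 1`,
`r` and `d ≥ 2` dividing `n` there is `s` such that `B_{r,n}` is finite if `P s n d` is. (5) If
`d ≥ 2` and `r ≤ 1 + (s - 1) d ^ s - s d ^ (s - 1)`, then `B_{r,m}` is a quotient of a subgroup of
`P s (d m) d`. -/
theorem result :
    (∀ n p : ℕ, 1 ≤ n → p.Prime → p ∣ n → (InL.{u} n ↔ ConjugatePowers.{v} n (n / p))) ∧
    (∀ n d : ℕ, 2 ≤ d → d ∣ n →
      (InL.{u} n ↔ SmallOrder.{v} n d) ∧ (InL.{u} n ↔ ∀ s, Finite (P s n d))) ∧
    (∀ n d e : ℕ, 2 ≤ d → 2 ≤ e → d ∣ n → e ∣ n → (SmallOrder.{u} n d ↔ SmallOrder.{u} n e)) ∧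
    (∀ n r d : ℕ, 2 ≤ d → d ∣ n → ∃ s, Finite (P s n d) → Finite (B r n)) ∧
    (∀ d s m r : ℕ, 2 ≤ d → r + d ^ s + s * d ^ (s - 1) ≤ 1 + s * d ^ s →
      ∃ (K : Subgroup (P s (d * m) d)) (φ : K →* B r m), Function.Surjective φ) := by
  refine ⟨?_, fun n d hd hdn => small_iff hd hdn, ?_, ?_, ?_⟩
  · intro n p hn hp hpn
    obtain ⟨m, rfl⟩ := hpn
    have hm : 1 ≤ m := by
      rcases Nat.eq_zero_or_pos m with rfl | h
      · simp at hn
      · exact h
    rw [Nat.mul_div_cancel_left m hp.pos]
    exact conj_iff hp hm
  · intro n d e hd he hdn hen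
    exact (small_iff.{u, u} hd hdn).1.symm.trans (small_iff.{u, u} he hen).1
  · intro n r d hd hdn
    by_cases h : ∀ s, Finite (P s n d)
    · refine ⟨0, fun _ => ?_⟩
      have hL : InL.{0} n := (small_iff.{0, 0} hd hdn).2.2 h
      have h3 := hL (Pool.Agent.Q133.MU.B r n) (Pool.Agent.Q133.MU.B_exp r n) _
        (Set.finite_range fun i : Fin r => (QuotientGroup.mk (FreeGroup.of i) :
          Pool.Agent.Q133.MU.B r n))
      rw [Pool.Agent.Q133.MU.B_gen] at h3
      exact Finite.of_equiv _ (Subgroup.topEquiv (G := Pool.Agent.Q133.MU.B r n)).toEquiv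
    · push Not at h
      obtain ⟨s, hs⟩ := h
      exact ⟨s, fun h' => absurd h' (not_finite_iff_infinite.2 hs)⟩
  · intro d s m r hd hr
    exact Pool.Agent.Q133.MU.elem_section hd hr

end Pool.Agent.Results.MP_544bd1_al.PowersOfPrimeOrder
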