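import Mathlib
import Pool.Agent.Q133.BT.Series

/-!
# Three generators decide local finiteness, for all exponents not divisible by four and many others

Let `G` satisfy `x ^ n = 1`, and let its three-generator subgroups be finite (and soluble, if `n`
has more than two prime divisors).  Call `n` nonexceptional if it is not divisible by `2 ^ μ q`
with `μ ≥ 2` and a prime `q` one of whose powers is `2 ^ μ - 1`; for example, `n` is odd or twice
an odd number, with arbitrary odd part.

* If `n` is nonexceptional, `G` has a normal series of length `l (n)`, which depends on `n` only,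
  whose `i`-th factor has an exponent dividing `q_i`, where `q_0, q_1, …` are prime powers dividing
  `n` which depend on `n` only.  The three-generator subgroups may have unbounded orders, and the
  prime powers need not be in `𝓛`.
* The same holds for every `n ≥ 1` if the orders of the three-generator subgroups are at most `c`,
  with length `c ω(n)`.
* In both cases `G` is locally finite if the prime powers greater than `4` dividing `n` are in `𝓛`.

Outline.  The library `Pool.Agent.H32BU` of the result `ThreeGenerators` shows: if the three-generator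
subgroups of `G` are finite and soluble of Fitting height at most `m + 1`, let `M` be generated by the
normal closures of the sets of those `p`-elements `e` for which `⟨e, y⟩` is a `p`-group for all
`p`-elements `y`, one for each prime `p ∣ n`; then the three-generator subgroups of `G / M` have
Fitting height at most `m`.  This gives the normal series.  New is the bound for the Fitting height:
let `h (n)` be the maximal height of the finite soluble groups of exponent dividing `n`.  If `n` is
even, take `p = 2`, otherwise any prime `p ∣ n`.  By Theorem B of Hall and Higman (a version which is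
proved in `Pool.Agent.TH69`) the elements `x ^ (n / p)` lie in `O_{p',p}`, so that
`h (n) ≤ h (n / p) + 1 + h (m)`, where `m` is the `p'`-part of `n`; the exceptional pairs `(p, q)`
with a Fermat prime `p` and `q = 2` do not matter, as the prime `2` is removed first.
-/

set_option autoImplicit false

namespace Pool.Agent.Results.MP_544bd1_al.ThreeGeneratorSeries

universe u

/-- `n ∈ 𝓛`: every group satisfying `x ^ n = 1` is locally finite. -/
def InL (n : ℕ) : Prop := ∀ (G : Type u) [Group G], (∀ x : G, x ^ n = 1) →
  ∀ S : Set G, S.Finite → Finite (Subgroup.closure S)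

/-- Every prime power greater than `4` dividing `n` is in `𝓛`. -/
def PrimePowersInL (n : ℕ) : Prop :=
  ∀ p k : ℕ, p.Prime → p ^ k ∣ n → 4 < p ^ k → InL.{u} (p ^ k)

/-- `n` is not divisible by `2 ^ μ * q` if `μ ≥ 2` and `2 ^ μ - 1` is a power of the prime `q`. -/
def NonExceptional (n : ℕ) : Prop := ∀ q μ r : ℕ, q.Prime → q ∣ n → 2 ≤ μ → 2 ^ μ ∣ n →
  1 ≤ r → q ^ r ≠ 2 ^ μ - 1

/-- The three-generator subgroups of `G` are finite, and soluble if `n` has more than two prime
divisors. -/
def Three (n : ℕ) (G : Type u) [Group G] : Prop :=
  (∀ x y z : G, Finite (Subgroup.closure {x, y, z})) ∧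
  (n.primeFactors.card ≤ 2 ∨ ∀ x y z : G, Group.IsSolvable (Subgroup.closure {x, y, z}))

/-- `G` has a normal series `1 = N 0 ≤ N 1 ≤ … ≤ N l = G` such that the exponent of `N (i+1) / N i`
divides `q i`. -/
def HasSeries (q : ℕ → ℕ) (l : ℕ) (G : Type) [Group G] : Prop :=
  ∃ N : ℕ → Subgroup G, N 0 = ⊥ ∧ N l = ⊤ ∧ ∀ i < l, (N i).Normal ∧ N i ≤ N (i + 1) ∧
    ∀ x ∈ N (i + 1), x ^ q i ∈ N i

/-- Let `n ≥ 1`; if `4 ∤ n`, then `n` is nonexceptional. There are prime powers `q 0, q 1, …`
dividing `n` such that (1) if `n` is nonexceptional, then there is `l` such that every group `G`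
satisfying `x ^ n = 1` and `Three n G` has a normal series of length `l` whose factors have exponents
dividing `q 0, …, q (l - 1)`; (2) for every `c`, all groups `G` satisfying `x ^ n = 1` and `Three n G`
whose three-generator subgroups have order at most `c` have such a series of length `c ω(n)`;
(3) let the prime powers greater than `4` dividing `n` be in `𝓛`; then every group `G` satisfying
`x ^ n = 1` and `Three n G` is locally finite, if `n` is nonexceptional or the orders of the
three-generator subgroups are bounded. -/
theorem result (n : ℕ) (hn : 1 ≤ n) :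
    (¬ 4 ∣ n → NonExceptional n) ∧
    ∃ q : ℕ → ℕ, (∀ i, ∃ p k : ℕ, p.Prime ∧ q i = p ^ k ∧ q i ∣ n) ∧
      (NonExceptional n → ∃ l : ℕ, ∀ (G : Type) [Group G], (∀ x : G, x ^ n = 1) → Three n G →
        HasSeries q l G) ∧
      (∀ (c : ℕ) (G : Type) [Group G], (∀ x : G, x ^ n = 1) → Three n G →
        (∀ x y z : G, Nat.card (Subgroup.closure {x, y, z}) ≤ c) →
        HasSeries q (c * n.primeFactors.card) G) ∧
      (PrimePowersInL.{u} n → ∀ (G : Type u) [Group G], (∀ x : G, x ^ n = 1) → Three n G →
        (NonExceptional n ∨
          ∃ c : ℕ, ∀ x y z : G, Nat.card (Subgroup.closure {x, y, z}) ≤ c) →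
        ∀ S : Set G, S.Finite → Finite (Subgroup.closure S)) := by
  refine ⟨Pool.Agent.Q133.BT.nonEx_of_not_four, Pool.Agent.Q133.BT.qq n,
    Pool.Agent.Q133.BT.qq_spec n, fun hE => ?_, fun c G _ hG h hc => ?_,
    fun hL G _ hG h hc S hS => ?_⟩
  · obtain ⟨m, hm⟩ := Pool.Agent.Q133.BT.height n hn hE
    exact ⟨m * n.primeFactors.card, fun G _ hG h => Pool.Agent.Q133.BT.series hn m G hG
      (Pool.Agent.Q133.BT.C3_of hn hm hG h)⟩
  · exact Pool.Agent.Q133.BT.series hn c G hG (Pool.Agent.Q133.BT.C3_of_card hn hG h hc)
  · refine Pool.Agent.Q133.BT.lf_of hn hL G hG (fun Q _ f hf => ?_) S hS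
    have hQ : ∀ x : Q, x ^ n = 1 := fun x => hf (by rw [map_pow, map_one]; exact hG _)
    have h3 : Pool.Agent.Q133.BT.Three n Q := Pool.Agent.Q133.BT.Three.transfer f hf h
    rcases hc with hE | ⟨c, hc⟩
    · obtain ⟨m, hm⟩ := Pool.Agent.Q133.BT.height n hn hE
      exact ⟨m, Pool.Agent.Q133.BT.C3_of hn hm hQ h3⟩
    · exact ⟨c, Pool.Agent.Q133.BT.C3_of_card hn hQ h3
        (Pool.Agent.Q133.BT.card_transfer f hf hc)⟩

end Pool.Agent.Results.MP_544bd1_al.ThreeGeneratorSeries
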