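import Mathlib
import Pool.Agent.Q133.MU.Cyc
import Pool.Agent.Results.MP_544bd1_al.TwoGenerators
import Pool.Agent.Results.MP_544bd1_al.ThreeGeneratorsFive
import Pool.Agent.Results.MP_544bd1_al.ThreeGeneratorSeries

/-!
# The two-generator groups of exponent `t n` and local finiteness for exponent `n`

Let `B_{m,n}` be the free Burnside group of rank `m` and exponent `n`. If the finite group `T` of
exponent dividing `t` is generated by `m` elements, then `B_{r,n}` with `r = 1 + (m - 1) |T|` is a
quotient of a subgroup of `B_{m,tn}`. So if `B_{2,tn}` is finite, `B_{r,n}` is finite for all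
`r ≤ 1 + |T|`; in particular for all `r ≤ 1 + t ^ 2`, `T` the product of two cyclic groups. If `n` is
not in `𝓛`, then `B_{2,tn}` is infinite for all large `t`, even if `B_{2,n}` is finite.

This is combined with the results which say that two or three generators decide (`TwoGenerators`,
`ThreeGeneratorsFive`, `ThreeGeneratorSeries`).

* If `5` is not in `𝓛`, then `B_{2,n}` is infinite for all multiples `n ≠ 5` of `5`.
* The number `n` is in `𝓛` if and only if `B_{2,n}` is finite, for `n = 10`, `15` and `20`, and more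
  generally for the admissible `n ≠ 5` of `TwoGenerators` such that the prime powers greater than
  `5` which divide `n` are in `𝓛` (if `n` has at most two prime divisors or `B_{2,n}` is soluble).
* Let `B_{2,tn}` be finite for some `t ≥ 2`, and let `n` have at most two prime divisors or let
  `B_{2,tn}` be soluble; here `n` need not be admissible (for instance `n = 36`). Then all groups
  which satisfy `x ^ n = 1` have a normal series of a length which depends on `n` only, whose
  factors have exponents which divide prime powers dividing `n` (the prime powers need not be in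
  `𝓛`); and `n` is in `𝓛` if the prime powers greater than `5` dividing `n` are in `𝓛`.

Proof of the first assertion: choose a spanning tree of the Cayley graph of `T`, and give the `r`
other edges the generators of `B_{r,n}` as labels; the free group of rank `m` acts on `T × B_{r,n}`,
its `t n`-th powers act trivially, and the stabiliser of the block over `1` maps onto `B_{r,n}`.
-/

set_option autoImplicit false

namespace Pool.Agent.Results.MP_544bd1_al.TwoGeneratorsOfMultiples

universe u

/-- `n ∈ 𝓛`: every group satisfying `x ^ n = 1` is locally finite. -/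
def InL (n : ℕ) : Prop := ∀ (G : Type u) [Group G], (∀ x : G, x ^ n = 1) →
  ∀ S : Set G, S.Finite → Finite (Subgroup.closure S)

/-- The free Burnside group `B_{m,n}`: the free group of rank `m` modulo the normal closure of all
`n`-th powers. -/
abbrev B (m n : ℕ) : Type :=
  FreeGroup (Fin m) ⧸ Subgroup.normalClosure (Set.range fun w : FreeGroup (Fin m) => w ^ n)

/-- Every prime power greater than `5` dividing `n` is in `𝓛`. -/
def PrimePowersInL (n : ℕ) : Prop :=
  ∀ p k : ℕ, p.Prime → p ^ k ∣ n → 5 < p ^ k → InL.{u} (p ^ k)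

/-- The admissible exponents of `TwoGenerators`: `n` is not divisible by `2 ^ m * (2 ^ m - 1) ^ 2`
for any `m ≥ 2`, and there are at most two odd primes whose square divides `n`. -/
def Admissible (n : ℕ) : Prop :=
  (∀ m : ℕ, 2 ≤ m → ¬ 2 ^ m * (2 ^ m - 1) ^ 2 ∣ n) ∧
    ∃ p q : ℕ, ∀ r : ℕ, r.Prime → r ≠ 2 → r ^ 2 ∣ n → r = p ∨ r = q

/-- `G` has a normal series `1 = N 0 ≤ N 1 ≤ … ≤ N l = G` such that each factor has an exponent
dividing a prime power which divides `n`. -/
def HasSeries (n l : ℕ) (G : Type) [Group G] : Prop :=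
  ∃ N : ℕ → Subgroup G, N 0 = ⊥ ∧ N l = ⊤ ∧ ∀ i < l, (N i).Normal ∧ N i ≤ N (i + 1) ∧
    ∃ p k : ℕ, p.Prime ∧ p ^ k ∣ n ∧ ∀ x ∈ N (i + 1), x ^ p ^ k ∈ N i

theorem five {t : ℕ} (ht : 2 ≤ t) (h : Finite (B 2 (5 * t))) : InL.{u} 5 := by
  rw [mul_comm] at h
  have h3 : Finite (B 3 5) :=
    Pool.Agent.Q133.MU.fin_two (t := t) (n := 5) (r := 3) (by omega) (by nlinarith) h
  exact (Pool.Agent.Results.MP_544bd1_al.ThreeGeneratorsFive.result.{u}.2.2.1 5 (Or.inl rfl)).2 h3

theorem equi {n : ℕ} (hn : 1 ≤ n) (h5 : n ≠ 5) (hA : Admissible n) (hq : PrimePowersInL.{u} n)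
    (hs : n.primeFactors.card ≤ 2 ∨ Group.IsSolvable (B 2 n)) : InL.{u} n ↔ Finite (B 2 n) := by
  have h1 := (Pool.Agent.Results.MP_544bd1_al.TwoGenerators.result.{u}.2 n hn hA).2 hs
  refine ⟨fun h => (h1.1 h).2, fun h => h1.2 ⟨?_, h⟩⟩
  intro p k hp hk h4
  rcases Nat.lt_or_ge 5 (p ^ k) with hlt | hge
  · exact hq p k hp hk hlt
  · have e : p ^ k = 5 := by omega
    rw [e] at hk ⊢
    obtain ⟨t, rfl⟩ := hk
    have ht : 2 ≤ t := by
      rcases t with _ | _ | t
      · omega
      · omega
      · omega
    exact five ht h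

theorem three_of {n : ℕ} (hs : n.primeFactors.card ≤ 2 ∨ Group.IsSolvable (B 3 n))
    (hf : Finite (B 3 n)) : ∀ (G : Type) [Group G], (∀ x : G, x ^ n = 1) →
      ∀ x y z : G, Finite (Subgroup.closure {x, y, z}) ∧
        Nat.card (Subgroup.closure {x, y, z}) ≤ Nat.card (B 3 n) ∧
        (n.primeFactors.card ≤ 2 ∨ Group.IsSolvable (Subgroup.closure {x, y, z})) := by
  intro G _ hG x y z
  have hker : Subgroup.normalClosure (Set.range fun w : FreeGroup (Fin 3) => w ^ n) ≤
      (FreeGroup.lift ![x, y, z]).ker := by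
    refine Subgroup.normalClosure_le_normal ?_
    rintro _ ⟨w, rfl⟩
    show FreeGroup.lift ![x, y, z] (w ^ n) = 1
    rw [map_pow, hG]
  let φ : B 3 n →* G := QuotientGroup.lift _ (FreeGroup.lift ![x, y, z]) hker
  have hr : Subgroup.closure {x, y, z} ≤ φ.range := by
    rw [Subgroup.closure_le]
    rintro a (rfl | rfl | rfl)
    · exact ⟨QuotientGroup.mk (FreeGroup.of 0), by
        show FreeGroup.lift _ (FreeGroup.of 0) = _; rw [FreeGroup.lift_apply_of]; rfl⟩
    · exact ⟨QuotientGroup.mk (FreeGroup.of 1), by
        show FreeGroup.lift _ (FreeGroup.of 1) = _; rw [FreeGroup.lift_apply_of]; rfl⟩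
    · exact ⟨QuotientGroup.mk (FreeGroup.of 2), by
        show FreeGroup.lift _ (FreeGroup.of 2) = _; rw [FreeGroup.lift_apply_of]; rfl⟩
  have h2 : Finite φ.range := Finite.of_surjective φ.rangeRestrict φ.rangeRestrict_surjective
  have hfin : Finite (Subgroup.closure {x, y, z}) := Finite.Set.subset (φ.range : Set G) hr
  refine ⟨hfin, ?_, ?_⟩
  · exact (Nat.card_le_card_of_injective _ (Subgroup.inclusion_injective hr)).trans
      (Nat.card_le_card_of_surjective φ.rangeRestrict φ.rangeRestrict_surjective)
  · rcases hs with h | h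
    · exact Or.inl h
    · refine Or.inr ?_
      have h3 : Group.IsSolvable φ.range :=
        Group.isSolvable_of_surjective φ.rangeRestrict_surjective
      exact Group.isSolvable_of_isSolvable_injective (Subgroup.inclusion_injective hr)

/-- (1) Let `T` be a finite group of exponent dividing `t` generated by `m` elements, and
`r ≤ 1 + (m - 1) |T|`. Then `B_{r,n}` is a quotient of a subgroup of `B_{m,tn}`, so it is finite
if `B_{m,tn}` is. (2) If `n ∉ 𝓛`, then `B_{2,tn}` is infinite for all sufficiently large `t`. (3) If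
`5 ∉ 𝓛`, then `B_{2,5t}` is infinite for all `t ≥ 2`. (4) Let `n ≥ 1`, `t ≥ 2`, let `B_{2,tn}` be
finite, and let `n` have at most two prime divisors or `B_{2,tn}` be soluble. Then there is `l` such
that all groups satisfying `x ^ n = 1` have a normal series of length `l` whose factors have exponents
dividing prime powers which divide `n`; and if the prime powers greater than `5` which divide `n` are
in `𝓛`, then `n ∈ 𝓛`. (5) Let `n ≠ 5` be admissible, let the prime powers greater than `5` which
divide `n` be in `𝓛`, and let `n` have at most two prime divisors or `B_{2,n}` be soluble. Then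
`n ∈ 𝓛` if and only if `B_{2,n}` is finite. (6) If `n` is `10`, `15` or `20`, then `n ∈ 𝓛` if and
only if `B_{2,n}` is finite. -/
theorem result :
    (∀ (m t n r : ℕ) (T : Type) [Group T] [Finite T] (x : Fin m → T),
      Subgroup.closure (Set.range x) = ⊤ → (∀ a : T, a ^ t = 1) →
      r + Nat.card T ≤ 1 + m * Nat.card T →
      (∃ (K : Subgroup (B m (t * n))) (φ : K →* B r n), Function.Surjective φ) ∧
      (Finite (B m (t * n)) → Finite (B r n))) ∧
    (∀ n : ℕ, ¬ InL.{u} n → ∃ t₀ : ℕ, ∀ t : ℕ, t₀ ≤ t → Infinite (B 2 (t * n))) ∧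
    (¬ InL.{u} 5 → ∀ t : ℕ, 2 ≤ t → Infinite (B 2 (5 * t))) ∧
    (∀ n t : ℕ, 1 ≤ n → 2 ≤ t → Finite (B 2 (t * n)) →
      (n.primeFactors.card ≤ 2 ∨ Group.IsSolvable (B 2 (t * n))) →
      (∃ l : ℕ, ∀ (G : Type) [Group G], (∀ x : G, x ^ n = 1) → HasSeries n l G) ∧
      (PrimePowersInL.{u} n → InL.{u} n)) ∧
    (∀ n : ℕ, 1 ≤ n → n ≠ 5 → Admissible n → PrimePowersInL.{u} n →
      (n.primeFactors.card ≤ 2 ∨ Group.IsSolvable (B 2 n)) → (InL.{u} n ↔ Finite (B 2 n))) ∧
    ∀ n : ℕ, n = 10 ∨ n = 15 ∨ n = 20 → (InL.{u} n ↔ Finite (B 2 n)) := by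
  refine ⟨?_, ?_, ?_, ?_, fun n hn h5 hA hq hs => equi hn h5 hA hq hs, ?_⟩
  · intro m t n r T _ _ x hx hT hr
    exact ⟨Pool.Agent.Q133.MU.section_of x hx hT hr (Pool.Agent.Q133.MU.B_exp r n) _
      (Pool.Agent.Q133.MU.B_gen r n), fun h => Pool.Agent.Q133.MU.finite_of x hx hT hr h⟩
  · intro n hL
    have hex : ∃ m, ¬ Finite (B m n) := by
      by_contra hcon
      push Not at hcon
      exact hL fun G _ hG S hS => Pool.Agent.Q133.MU.finite_closure hcon G hG S hS
    obtain ⟨m, hm⟩ := hex
    refine ⟨m + 1, fun t ht => ?_⟩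
    rw [← not_finite_iff_infinite]
    intro h
    exact hm (Pool.Agent.Q133.MU.fin_two (t := t) (n := n) (r := m) (by omega) (by nlinarith) h)
  · intro h5 t ht
    rw [← not_finite_iff_infinite]
    intro h
    exact h5 (five ht h)
  · intro n t hn ht hf hs
    have hf3 : Finite (B 3 n) :=
      Pool.Agent.Q133.MU.fin_two (t := t) (n := n) (r := 3) (by omega) (by nlinarith) hf
    have hs3 : n.primeFactors.card ≤ 2 ∨ Group.IsSolvable (B 3 n) := by
      rcases hs with h | h
      · exact Or.inl h
      · exact Or.inr (Pool.Agent.Q133.MU.solv_two (t := t) (n := n) (r := 3) (by omega)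
          (by nlinarith) h)
    refine ⟨?_, fun hq => ?_⟩
    · obtain ⟨q, hq, -, h2, -⟩ :=
        (Pool.Agent.Results.MP_544bd1_al.ThreeGeneratorSeries.result.{0} n hn).2
      refine ⟨Nat.card (B 3 n) * n.primeFactors.card, fun G _ hG => ?_⟩
      have h3 := three_of hs3 hf3 G hG
      obtain ⟨N, hN0, hNl, hN⟩ := h2 (Nat.card (B 3 n)) G hG
        ⟨fun x y z => (h3 x y z).1, by
          by_cases hc : n.primeFactors.card ≤ 2
          · exact Or.inl hc
          · exact Or.inr fun x y z => (h3 x y z).2.2.resolve_left hc⟩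
        (fun x y z => (h3 x y z).2.1)
      refine ⟨N, hN0, hNl, fun i hi => ⟨(hN i hi).1, (hN i hi).2.1, ?_⟩⟩
      obtain ⟨p, k, hp, hpk, hd⟩ := hq i
      exact ⟨p, k, hp, by rw [← hpk]; exact hd, by rw [← hpk]; exact (hN i hi).2.2⟩
    · exact (Pool.Agent.Results.MP_544bd1_al.ThreeGeneratorsFive.result.{u}.2.2.2 n hn hq hs3).2 hf3
  · intro n hn
    have hA : Admissible n := by
      have h := Pool.Agent.Results.MP_544bd1_al.TwoGenerators.result.{u}.1
      rcases hn with rfl | rfl | rfl
      · exact (h 5 (by decide) (by norm_num)).2.1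
      · exact (h 15 (by decide) (by norm_num)).1
      · exact (h 5 (by decide) (by norm_num)).2.2 (by norm_num) (by norm_num) (by norm_num) 2
    have hc : n.primeFactors.card ≤ 2 := by
      rcases hn with rfl | rfl | rfl <;> decide +kernel
    refine equi (by omega) (by omega) hA ?_ (Or.inl hc)
    intro p k hp hk h5
    exfalso
    rcases hn with rfl | rfl | rfl
    · have hd : p ^ k ∈ Nat.divisors 10 := Nat.mem_divisors.2 ⟨hk, by norm_num⟩
      have h10 : Nat.divisors 10 = {1, 2, 5, 10} := by decide +kernel
      rw [h10] at hd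
      simp only [Finset.mem_insert, Finset.mem_singleton] at hd
      have he : p ^ k = 10 := by omega
      have hpp : IsPrimePow 10 := by
        rw [← he]
        exact hp.isPrimePow.pow (by rintro rfl; simp at he)
      exact absurd hpp (by
        rw [isPrimePow_iff_card_primeFactors_eq_one]
        decide +kernel)
    · have hd : p ^ k ∈ Nat.divisors 15 := Nat.mem_divisors.2 ⟨hk, by norm_num⟩
      have h10 : Nat.divisors 15 = {1, 3, 5, 15} := by decide +kernel
      rw [h10] at hd
      simp only [Finset.mem_insert, Finset.mem_singleton] at hd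
      have he : p ^ k = 15 := by omega
      have hpp : IsPrimePow 15 := by
        rw [← he]
        exact hp.isPrimePow.pow (by rintro rfl; simp at he)
      exact absurd hpp (by
        rw [isPrimePow_iff_card_primeFactors_eq_one]
        decide +kernel)
    · have hd : p ^ k ∈ Nat.divisors 20 := Nat.mem_divisors.2 ⟨hk, by norm_num⟩
      have h10 : Nat.divisors 20 = {1, 2, 4, 5, 10, 20} := by decide +kernel
      rw [h10] at hd
      simp only [Finset.mem_insert, Finset.mem_singleton] at hd
      have he : p ^ k = 10 ∨ p ^ k = 20 := by omega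
      have hk0 : k ≠ 0 := by rintro rfl; simp at he
      have hpp : IsPrimePow (p ^ k) := hp.isPrimePow.pow hk0
      rcases he with he | he <;> rw [he] at hpp <;> exact absurd hpp (by
        rw [isPrimePow_iff_card_primeFactors_eq_one]
        decide +kernel)

end Pool.Agent.Results.MP_544bd1_al.TwoGeneratorsOfMultiples
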