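import Mathlib
import Pool.Agent.Q133.MU.Ex
import Pool.Agent.Results.MP_544bd1_al.TwoGeneratorsOfMultiples
import Pool.Agent.Results.MP_544bd1_al.PrimePowerGenerators
import Pool.Agent.Results.MP_544bd1_al.ExponentTwiceOdd

/-!
# Generators of small order and local finiteness for exponent `n`

Let `P N d` be the largest group of exponent dividing `N` which is generated by elements `x_i` with
`x_i ^ (d i) = 1`. Let `T` be a finite group of exponent dividing `t` generated by such elements `x_i`.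
Then `B_{r,n}` is a quotient of a subgroup of `P (t n) d` for
`r = 1 + (m - 1) |T| - ∑ |T| / |x_i|`; and for `r = |T|` if some `x_i` is trivial and `n ∣ d i`.
So the finiteness of the group generated by

* three involutions, of exponent `2 n`,
* two elements of order three, of exponent `3 n`,
* an involution and an element of order three, of exponent `6 n` (the modular group modulo its
  `6 n`-th powers),

implies the finiteness of `B_{3,n}`, and hence, if `n` has at most two prime divisors and the prime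
powers greater than `5` which divide `n` are in `𝓛`, that `n` is in `𝓛`.

As a consequence the hypothesis on the exponent `5` in the criteria `PrimePowerGenerators` and
`ExponentTwiceOdd` can be removed: for a prime `p ≠ 5` and `q = p ^ a > 1` the number `5 q` is in `𝓛`
if and only if `q` is in `𝓛` and the groups `P (5 q) (q, 5, q)` and `P (5 q) (q, 5, 5)` are finite;
`10` is in `𝓛` if and only if the groups of exponent `10` generated by two elements of order `5` and
those generated by three involutions are finite.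

Proof of the first assertion: the free product `Γ` of the cyclic groups of orders `d i` acts on
`T × G`, `G = B_{r,n}`, where `x_i` maps `(a, g)` to `(x_i a, λ_i(x_i a)⁻¹ λ_i(a) g)`; the labels
`λ_i(a) ∈ G` are trivial on a spanning tree of the bipartite graph of the elements of `T` and the
orbits of the generators on `T`, and the other ones are the generators of `G`. The `t n`-th powers
of the elements of `Γ` act trivially, and the stabiliser of the block over `1` maps onto `G`.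
-/

set_option autoImplicit false

namespace Pool.Agent.Results.MP_544bd1_al.SmallOrderGenerators

universe u

/-- `n ∈ 𝓛`: every group satisfying `x ^ n = 1` is locally finite. -/
def InL (n : ℕ) : Prop := ∀ (G : Type u) [Group G], (∀ x : G, x ^ n = 1) →
  ∀ S : Set G, S.Finite → Finite (Subgroup.closure S)

/-- The free Burnside group `B_{m,n}`: the free group of rank `m` modulo the normal closure of all
`n`-th powers. -/
abbrev B (m n : ℕ) : Type :=
  FreeGroup (Fin m) ⧸ Subgroup.normalClosure (Set.range fun w : FreeGroup (Fin m) => w ^ n)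

/-- The largest group of exponent dividing `N` which is generated by `m` elements `x_i` with
`x_i ^ (d i) = 1`: the free group of rank `m` modulo the normal closure of all `N`-th powers and of
the elements `x_i ^ (d i)`. -/
abbrev P {m : ℕ} (N : ℕ) (d : Fin m → ℕ) : Type :=
  FreeGroup (Fin m) ⧸ Subgroup.normalClosure
    ((Set.range fun w : FreeGroup (Fin m) => w ^ N) ∪
      Set.range fun i : Fin m => FreeGroup.of i ^ d i)

/-- `B_{r,n}` is a quotient of a subgroup of `Q`. -/
def Section (Q : Type) [Group Q] (r n : ℕ) : Prop :=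
  ∃ (K : Subgroup Q) (φ : K →* B r n), Function.Surjective φ

/-- Every prime power greater than `5` dividing `n` is in `𝓛`. -/
def PrimePowersInL (n : ℕ) : Prop :=
  ∀ p k : ℕ, p.Prime → p ^ k ∣ n → 5 < p ^ k → InL.{u} (p ^ k)

/-- `G` has a normal series `1 = N 0 ≤ N 1 ≤ … ≤ N l = G` such that each factor has an exponent
dividing a prime power which divides `n`. -/
def HasSeries (n l : ℕ) (G : Type) [Group G] : Prop :=
  ∃ N : ℕ → Subgroup G, N 0 = ⊥ ∧ N l = ⊤ ∧ ∀ i < l, (N i).Normal ∧ N i ≤ N (i + 1) ∧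
    ∃ p k : ℕ, p.Prime ∧ p ^ k ∣ n ∧ ∀ x ∈ N (i + 1), x ^ p ^ k ∈ N i

theorem Section.finite {Q : Type} [Group Q] {r n : ℕ} (h : Section Q r n) (hQ : Finite Q) :
    Finite (B r n) := by
  obtain ⟨K, φ, hφ⟩ := h
  exact Finite.of_surjective φ hφ

theorem Section.solv {Q : Type} [Group Q] {r n : ℕ} (h : Section Q r n)
    (hQ : Group.IsSolvable Q) : Group.IsSolvable (B r n) := by
  obtain ⟨K, φ, hφ⟩ := h
  exact Group.isSolvable_of_surjective hφ

/-- fewer generators -/
theorem fin_le {r s n : ℕ} (h : r ≤ s) (hf : Finite (B s n)) : Finite (B r n) := by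
  let g : Fin s → B r n := fun i => if hi : i.1 < r then
    (QuotientGroup.mk (FreeGroup.of ⟨i.1, hi⟩) : B r n) else 1
  have hker : Subgroup.normalClosure (Set.range fun w : FreeGroup (Fin s) => w ^ n) ≤
      (FreeGroup.lift g).ker := by
    refine Subgroup.normalClosure_le_normal ?_
    rintro _ ⟨w, rfl⟩
    show FreeGroup.lift g (w ^ n) = 1
    rw [map_pow]
    exact Pool.Agent.Q133.MU.B_exp r n _
  let φ : B s n →* B r n := QuotientGroup.lift _ _ hker
  refine Finite.of_surjective φ ?_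
  rw [← MonoidHom.range_eq_top, ← top_le_iff, ← Pool.Agent.Q133.MU.B_gen r n,
    Subgroup.closure_le]
  rintro _ ⟨i, rfl⟩
  refine ⟨QuotientGroup.mk (FreeGroup.of (Fin.castLE h i)), ?_⟩
  show FreeGroup.lift g (FreeGroup.of (Fin.castLE h i)) = _
  rw [FreeGroup.lift_apply_of]
  simp [g]

/-- the consequences of the finiteness of `B 3 n` -/
theorem cons {n : ℕ} (hn : 1 ≤ n) (hs : n.primeFactors.card ≤ 2 ∨ Group.IsSolvable (B 3 n))
    (hf3 : Finite (B 3 n)) :
    (∃ l : ℕ, ∀ (G : Type) [Group G], (∀ x : G, x ^ n = 1) → HasSeries n l G) ∧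
      (PrimePowersInL.{u} n → InL.{u} n) := by
  refine ⟨?_, fun hq => ?_⟩
  · obtain ⟨q, hq, -, h2, -⟩ :=
      (Pool.Agent.Results.MP_544bd1_al.ThreeGeneratorSeries.result.{0} n hn).2
    refine ⟨Nat.card (B 3 n) * n.primeFactors.card, fun G _ hG => ?_⟩
    have h3 := Pool.Agent.Results.MP_544bd1_al.TwoGeneratorsOfMultiples.three_of hs hf3 G hG
    obtain ⟨N, hN0, hNl, hN⟩ := h2 (Nat.card (B 3 n)) G hG
      ⟨fun x y z => (h3 x y z).1, by
        by_cases hc : n.primeFactors.card ≤ 2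
        · exact Or.inl hc
        · exact Or.inr fun x y z => (h3 x y z).2.2.resolve_left hc⟩
      (fun x y z => (h3 x y z).2.1)
    refine ⟨N, hN0, hNl, fun i hi => ⟨(hN i hi).1, (hN i hi).2.1, ?_⟩⟩
    obtain ⟨p, k, hp, hpk, hd⟩ := hq i
    exact ⟨p, k, hp, by rw [← hpk]; exact hd, by rw [← hpk]; exact (hN i hi).2.2⟩
  · exact (Pool.Agent.Results.MP_544bd1_al.ThreeGeneratorsFive.result.{u}.2.2.2 n hn hq hs).2 hf3

theorem three_inv (n : ℕ) : Section (P (2 * n) ![2, 2, 2]) 5 n := by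
  have h := Pool.Agent.Q133.MU.three_inv (n := n) (r := 5) le_rfl
  have e : (fun _ : Fin 3 => 2) = ![2, 2, 2] := by
    funext i
    fin_cases i <;> rfl
  rw [e] at h
  exact h

theorem two_t (t n : ℕ) (ht : 2 ≤ t) : Section (P (t * n) ![t, t]) ((t - 1) ^ 2) n := by
  have h := Pool.Agent.Q133.MU.two_t (t := t) (n := n) (r := (t - 1) ^ 2) ht le_rfl
  have e : (fun _ : Fin 2 => t) = ![t, t] := by
    funext i
    fin_cases i <;> rfl
  rw [e] at h
  exact h

theorem two_three (n : ℕ) : Section (P (6 * n) ![2, 3]) 3 n :=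
  Pool.Agent.Q133.MU.two_three le_rfl

/-- the cyclic group of order `t` -/
abbrev CY (t : ℕ) : Type := Multiplicative (ZMod t)

theorem cy_exp (t : ℕ) (a : CY t) : a ^ t = 1 := by
  obtain ⟨b, rfl⟩ := Multiplicative.ofAdd.surjective a
  rw [← ofAdd_nsmul]
  have : t • b = 0 := by simp
  rw [this]
  rfl

theorem t_n (t n : ℕ) (ht : 1 ≤ t) : Section (P (t * n) ![t, n]) t n := by
  have : NeZero t := ⟨by omega⟩
  refine Pool.Agent.Q133.MU.section_free (T := CY t) (m := 2) ![Multiplicative.ofAdd 1, 1] ?_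
    (cy_exp t) ?_ 1 rfl dvd_rfl ?_ (Pool.Agent.Q133.MU.B_exp t n) _
    (Pool.Agent.Q133.MU.B_gen t n)
  · rw [eq_top_iff]
    rintro a -
    obtain ⟨b, rfl⟩ := Multiplicative.ofAdd.surjective a
    have h : (Multiplicative.ofAdd b : CY t) = Multiplicative.ofAdd (1 : ZMod t) ^ b.val := by
      rw [← ofAdd_nsmul]
      congr 1
      simp
    rw [h]
    exact pow_mem (Subgroup.subset_closure (Set.mem_range_self (0 : Fin 2))) _
  · intro i
    fin_cases i
    · exact cy_exp t _
    · exact one_pow _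
  · have : Nat.card (CY t) = Nat.card (ZMod t) := Nat.card_congr Multiplicative.toAdd
    rw [this, Nat.card_zmod]

/-- the wreath product with the square of a cyclic group -/
theorem t_n_t (t n : ℕ) (ht : 1 ≤ t) : Section (P (t * n) ![t, n, t]) (t ^ 2) n := by
  have : NeZero t := ⟨by omega⟩
  refine Pool.Agent.Q133.MU.section_free (T := Pool.Agent.Q133.MU.CC t) (m := 3)
    ![Pool.Agent.Q133.MU.xx t 0, 1, Pool.Agent.Q133.MU.xx t 1] ?_
    (Pool.Agent.Q133.MU.cc_exp t) ?_ 1 rfl dvd_rfl ?_ (Pool.Agent.Q133.MU.B_exp _ n) _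
    (Pool.Agent.Q133.MU.B_gen _ n)
  · rw [← top_le_iff, ← Pool.Agent.Q133.MU.xx_gen t, Subgroup.closure_le]
    rintro _ ⟨i, rfl⟩
    fin_cases i
    · exact Subgroup.subset_closure ⟨0, rfl⟩
    · exact Subgroup.subset_closure ⟨2, rfl⟩
  · intro i
    fin_cases i
    · exact Pool.Agent.Q133.MU.cc_exp t _
    · exact one_pow _
    · exact Pool.Agent.Q133.MU.cc_exp t _
  · rw [Pool.Agent.Q133.MU.card_cc]

theorem five_of {Q : Type} [Group Q] {r n : ℕ} (h : Section Q r n) (hr : 3 ≤ r) (hn : 5 ∣ n)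
    (hQ : Finite Q) : InL.{u} 5 := by
  have h1 : Finite (B 3 n) := fin_le hr (h.finite hQ)
  obtain ⟨c, rfl⟩ := hn
  have h3 : Finite (B 3 5) := by
    have hker : Subgroup.normalClosure (Set.range fun w : FreeGroup (Fin 3) => w ^ (5 * c)) ≤
        (QuotientGroup.mk' (Subgroup.normalClosure
          (Set.range fun w : FreeGroup (Fin 3) => w ^ 5))).ker := by
      refine Subgroup.normalClosure_le_normal ?_
      rintro _ ⟨w, rfl⟩
      show (QuotientGroup.mk (w ^ (5 * c)) : B 3 5) = 1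
      rw [QuotientGroup.mk_pow, pow_mul, Pool.Agent.Q133.MU.B_exp, one_pow]
    let φ : B 3 (5 * c) →* B 3 5 := QuotientGroup.lift _ _ hker
    refine Finite.of_surjective φ fun x => ?_
    obtain ⟨w, rfl⟩ := QuotientGroup.mk_surjective x
    exact ⟨QuotientGroup.mk w, rfl⟩
  exact (Pool.Agent.Results.MP_544bd1_al.ThreeGeneratorsFive.result.{u}.2.2.1 5 (Or.inl rfl)).2 h3

theorem range_vec (r s t : ℕ) :
    (Set.range fun i : Fin 3 => (FreeGroup.of i : FreeGroup (Fin 3)) ^ (![r, s, t] : Fin 3 → ℕ) i) =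
      {FreeGroup.of 0 ^ r, FreeGroup.of 1 ^ s, FreeGroup.of 2 ^ t} := by
  ext g
  simp only [Set.mem_range, Fin.exists_fin_succ, Set.mem_insert_iff, Set.mem_singleton_iff]
  simp [eq_comm]

theorem finite_iff (N r s t : ℕ) : Finite (P N ![r, s, t]) ↔
    Finite (Pool.Agent.Results.MP_544bd1_al.PrimePowerGenerators.P N r s t) := by
  unfold P Pool.Agent.Results.MP_544bd1_al.PrimePowerGenerators.P
  rw [range_vec]

/-- exponents `5 q` -/
theorem five_q (p a : ℕ) (hp : p.Prime) (hp5 : p ≠ 5) (ha : 1 ≤ a) :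
    InL.{u} (5 * p ^ a) ↔ InL.{u} (p ^ a) ∧ Finite (P (5 * p ^ a) ![p ^ a, 5, p ^ a]) ∧
      Finite (P (5 * p ^ a) ![p ^ a, 5, 5]) := by
  have h := Pool.Agent.Results.MP_544bd1_al.PrimePowerGenerators.result.{u}.1 p 5 a 1 hp
    (by norm_num) hp5
  rw [pow_one, mul_comm (p ^ a) 5] at h
  rw [finite_iff, finite_iff]
  have h2 : 2 ≤ p ^ a := by
    calc 2 ≤ p := hp.two_le
      _ = p ^ 1 := (pow_one p).symm
      _ ≤ p ^ a := Nat.pow_le_pow_right hp.pos ha
  constructor
  · intro hL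
    obtain ⟨h3, -, h4, h5⟩ := h.1 hL
    exact ⟨h3, h4, h5⟩
  · rintro ⟨h3, h4, h5⟩
    refine h.2 ⟨h3, ?_, h4, h5⟩
    refine five_of (t_n_t (p ^ a) 5 (by omega)) (by nlinarith) dvd_rfl ?_
    rw [finite_iff, mul_comm (p ^ a) 5]
    exact h4

theorem ten : InL.{u} 10 ↔ Finite (P 10 ![5, 5]) ∧ Finite (P 10 ![2, 2, 2]) := by
  have h := Pool.Agent.Results.MP_544bd1_al.ExponentTwiceOdd.result.{u}.2.2.2.1 5 1 (by norm_num)
    (by norm_num)
  rw [pow_one] at h
  have e1 : (fun _ : Fin 2 => 5) = ![5, 5] := by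
    funext i
    fin_cases i <;> rfl
  have e2 : (fun _ : Fin 3 => 2) = ![2, 2, 2] := by
    funext i
    fin_cases i <;> rfl
  have h1 : Finite (Pool.Agent.Results.MP_544bd1_al.ExponentTwiceOdd.P 2 (2 * 5) 5) ↔
      Finite (P 10 ![5, 5]) := by
    rw [← e1]
  have h2 : Finite (Pool.Agent.Results.MP_544bd1_al.ExponentTwiceOdd.P 3 (2 * 5) 2) ↔
      Finite (P 10 ![2, 2, 2]) := by
    rw [← e2]
  rw [h1, h2] at h
  refine ⟨fun hL => (h.1 hL).2, fun hF => h.2 ⟨?_, hF⟩⟩
  exact five_of (three_inv 5) (by norm_num) dvd_rfl hF.2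

/-- (1) Let `T` be a finite group of exponent dividing `t` generated by `x_1, …, x_m` with
`x_i ^ (d i) = 1`. If `r ≤ 1 + (m - 1) |T| - ∑ |T| / |x_i|`, then `B_{r,n}` is a quotient of a
subgroup of `P (t n) d`; this holds for all `r ≤ |T|`, if `x_i = 1` and `n ∣ d i` for some `i`. (2) In
particular `B_{5,n}` is a quotient of a subgroup of `P (2 n) (2, 2, 2)`, and so is `B_{(t-1)²,n}`
for `P (t n) (t, t)`, `B_{3,n}` for `P (6 n) (2, 3)` and `B_{t,n}` for `P (t n) (t, n)`. (3) Let
`T, t, x, d` be as in (1) with `r = 3`, `n ≥ 1`, let `P (t n) d` be finite, and let `n` have at most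
two prime divisors or `P (t n) d` be soluble. Then there is `l` such that all groups satisfying
`x ^ n = 1` have a normal series of length `l` whose factors have exponents dividing prime powers
which divide `n`; and if the prime powers greater than `5` which divide `n` are in `𝓛`, then
`n ∈ 𝓛`. (4) If `n ≥ 1` has at most two prime divisors, the prime powers greater than `5` which
divide `n` are in `𝓛`, and one of the groups `P (2 n) (2, 2, 2)`, `P (3 n) (3, 3)`,
`P (6 n) (2, 3)` is finite, then `n ∈ 𝓛`. (5) If `n ∉ 𝓛`, the groups `P (2 t n) (2, 2, 2)`,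
`P (3 t n) (3, 3)` and `P (6 t n) (2, 3)` are infinite for all sufficiently large `t`. (6) If
`5 ∉ 𝓛`, the groups `P (10 t) (2, 2, 2)`, `P (15 t) (3, 3)`, `P (30 t) (2, 3)`, `P (15 t) (3, 5 t)`
are infinite for all `t ≥ 1`. (7) Let `p ≠ 5` be a prime and `q = p ^ a > 1`. Then `5 q ∈ 𝓛` if and
only if `q ∈ 𝓛` and `P (5 q) (q, 5, q)`, `P (5 q) (q, 5, 5)` are finite. (8) For `q = 3, 4` the
condition `q ∈ 𝓛` in (7) can be omitted; and `10 ∈ 𝓛` if and only if `P 10 (5, 5)` and
`P 10 (2, 2, 2)` are finite. -/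
theorem result :
    (∀ (m t n r : ℕ) (T : Type) [Group T] [Finite T] (x : Fin m → T) (d : Fin m → ℕ),
      Subgroup.closure (Set.range x) = ⊤ → (∀ a : T, a ^ t = 1) → (∀ i, x i ^ d i = 1) →
      (r + Nat.card T + ∑ i, Nat.card T / orderOf (x i) ≤ 1 + m * Nat.card T ∨
        (r ≤ Nat.card T ∧ ∃ i, x i = 1 ∧ n ∣ d i)) →
      Section (P (t * n) d) r n ∧ (Finite (P (t * n) d) → Finite (B r n))) ∧
    (∀ n : ℕ, Section (P (2 * n) ![2, 2, 2]) 5 n ∧
      (∀ t : ℕ, 2 ≤ t → Section (P (t * n) ![t, t]) ((t - 1) ^ 2) n) ∧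
      Section (P (6 * n) ![2, 3]) 3 n ∧ ∀ t : ℕ, 1 ≤ t → Section (P (t * n) ![t, n]) t n) ∧
    (∀ (m t n : ℕ) (T : Type) [Group T] [Finite T] (x : Fin m → T) (d : Fin m → ℕ), 1 ≤ n →
      Subgroup.closure (Set.range x) = ⊤ → (∀ a : T, a ^ t = 1) → (∀ i, x i ^ d i = 1) →
      (3 + Nat.card T + ∑ i, Nat.card T / orderOf (x i) ≤ 1 + m * Nat.card T ∨
        (3 ≤ Nat.card T ∧ ∃ i, x i = 1 ∧ n ∣ d i)) →
      Finite (P (t * n) d) → (n.primeFactors.card ≤ 2 ∨ Group.IsSolvable (P (t * n) d)) →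
      (∃ l : ℕ, ∀ (G : Type) [Group G], (∀ x : G, x ^ n = 1) → HasSeries n l G) ∧
      (PrimePowersInL.{u} n → InL.{u} n)) ∧
    (∀ n : ℕ, 1 ≤ n → n.primeFactors.card ≤ 2 → PrimePowersInL.{u} n →
      (Finite (P (2 * n) ![2, 2, 2]) ∨ Finite (P (3 * n) ![3, 3]) ∨ Finite (P (6 * n) ![2, 3])) →
      InL.{u} n) ∧
    (∀ n : ℕ, ¬ InL.{u} n → ∃ t₀ : ℕ, ∀ t : ℕ, t₀ ≤ t → Infinite (P (2 * (t * n)) ![2, 2, 2]) ∧
      Infinite (P (3 * (t * n)) ![3, 3]) ∧ Infinite (P (6 * (t * n)) ![2, 3])) ∧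
    (¬ InL.{u} 5 → ∀ t : ℕ, 1 ≤ t → Infinite (P (2 * (5 * t)) ![2, 2, 2]) ∧
      Infinite (P (3 * (5 * t)) ![3, 3]) ∧ Infinite (P (6 * (5 * t)) ![2, 3]) ∧
      Infinite (P (3 * (5 * t)) ![3, 5 * t])) ∧
    (∀ p a : ℕ, p.Prime → p ≠ 5 → 1 ≤ a → (InL.{u} (5 * p ^ a) ↔ InL.{u} (p ^ a) ∧
      Finite (P (5 * p ^ a) ![p ^ a, 5, p ^ a]) ∧ Finite (P (5 * p ^ a) ![p ^ a, 5, 5]))) ∧
    (InL.{u} 15 ↔ Finite (P 15 ![3, 5, 3]) ∧ Finite (P 15 ![3, 5, 5])) ∧
    (InL.{u} 20 ↔ Finite (P 20 ![4, 5, 4]) ∧ Finite (P 20 ![4, 5, 5])) ∧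
    (InL.{u} 10 ↔ Finite (P 10 ![5, 5]) ∧ Finite (P 10 ![2, 2, 2])) := by
  have h1 : ∀ (m t n r : ℕ) (T : Type) [Group T] [Finite T] (x : Fin m → T) (d : Fin m → ℕ),
      Subgroup.closure (Set.range x) = ⊤ → (∀ a : T, a ^ t = 1) → (∀ i, x i ^ d i = 1) →
      (r + Nat.card T + ∑ i, Nat.card T / orderOf (x i) ≤ 1 + m * Nat.card T ∨
        (r ≤ Nat.card T ∧ ∃ i, x i = 1 ∧ n ∣ d i)) → Section (P (t * n) d) r n := by
    intro m t n r T _ _ x d hx hT hd h
    rcases h with h | ⟨h, i, hi, hn⟩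
    · exact Pool.Agent.Q133.MU.fin_orb x hx hT hd h
    · exact Pool.Agent.Q133.MU.section_free x hx hT hd i hi hn h
        (Pool.Agent.Q133.MU.B_exp r n) _ (Pool.Agent.Q133.MU.B_gen r n)
  have h34 : InL.{u} 3 ∧ InL.{u} 4 :=
    ⟨(Pool.Agent.H32BU.inL_iff Pool.Agent.H32BU.x_LFD 3).2 Pool.Agent.H32BU.x_L34.1,
      (Pool.Agent.H32BU.inL_iff Pool.Agent.H32BU.x_LFD 4).2 Pool.Agent.H32BU.x_L34.2⟩
  refine ⟨?_, fun n => ⟨three_inv n, fun t ht => two_t t n ht, two_three n, fun t ht => t_n t n ht⟩,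
    ?_, ?_, ?_, ?_, five_q, ?_, ?_, ten⟩
  · intro m t n r T _ _ x d hx hT hd h
    have hs := h1 m t n r T x d hx hT hd h
    exact ⟨hs, fun hf => hs.finite hf⟩
  · intro m t n T _ _ x d hn hx hT hd h hf hsol
    have hs := h1 m t n 3 T x d hx hT hd h
    exact cons hn (hsol.imp id fun h => hs.solv h) (hs.finite hf)
  · intro n hn hc hq h
    have hf : Finite (B 3 n) := by
      rcases h with h | h | h
      · exact fin_le (by norm_num) ((three_inv n).finite h)
      · exact fin_le (by norm_num) ((two_t 3 n (by norm_num)).finite h)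
      · exact (two_three n).finite h
    exact (cons hn (Or.inl hc) hf).2 hq
  · intro n hL
    have hex : ∃ m, ¬ Finite (B m n) := by
      by_contra hcon
      push Not at hcon
      exact hL fun G _ hG S hS => Pool.Agent.Q133.MU.finite_closure hcon G hG S hS
    obtain ⟨m, hm⟩ := hex
    have key : ∀ t : ℕ, m + 1 ≤ t → ¬ Finite (B 2 (t * n)) := by
      intro t ht h
      exact hm (Pool.Agent.Q133.MU.fin_two (t := t) (n := n) (r := m) (by omega) (by nlinarith) h)
    refine ⟨m + 1, fun t ht => ⟨?_, ?_, ?_⟩⟩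
    · rw [← not_finite_iff_infinite]
      exact fun h => key t ht (fin_le (by norm_num) ((three_inv _).finite h))
    · rw [← not_finite_iff_infinite]
      exact fun h => key t ht (fin_le (by norm_num) ((two_t 3 _ (by norm_num)).finite h))
    · rw [← not_finite_iff_infinite]
      exact fun h => key t ht (fin_le (by norm_num) ((two_three _).finite h))
  · intro h5 t ht
    refine ⟨?_, ?_, ?_, ?_⟩
    · rw [← not_finite_iff_infinite]
      exact fun h => h5 (five_of (three_inv _) (by norm_num) (dvd_mul_right _ _) h)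
    · rw [← not_finite_iff_infinite]
      exact fun h => h5 (five_of (two_t 3 _ (by norm_num)) (by norm_num) (dvd_mul_right _ _) h)
    · rw [← not_finite_iff_infinite]
      exact fun h => h5 (five_of (two_three _) (by norm_num) (dvd_mul_right _ _) h)
    · rw [← not_finite_iff_infinite]
      exact fun h => h5 (five_of (t_n 3 _ (by norm_num)) (by norm_num) (dvd_mul_right _ _) h)
  · have h := five_q.{u} 3 1 (by norm_num) (by norm_num) le_rfl
    rw [pow_one] at h
    exact h.trans ⟨fun h => h.2, fun h => ⟨h34.1, h⟩⟩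
  · have h := five_q.{u} 2 2 (by norm_num) (by norm_num) (by norm_num)
    exact h.trans ⟨fun h => h.2, fun h => ⟨h34.2, h⟩⟩

end Pool.Agent.Results.MP_544bd1_al.SmallOrderGenerators
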